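import Pool.Agent.helper84.NR.Spec

set_option autoImplicit false

namespace Pool.Agent.helper84.NR

open scoped Classical
open Finset

theorem GCN (hIDX : IDX_stmt) (hEDG : EDG_stmt) (hWW0 : WW0_stmt) : GCN_stmt := by
  intro V F _ _ M x y J hT
  have key : ∀ B ∈ J, (((range (M.len B)).filter (fun k => gp M x y B k)).card : ℤ) =
      ((shV M x B).card : ℤ) - (shE M x B).card - 1 := by
    intro B hB
    have hBy := hT.jy B hB
    obtain ⟨k0, hk0⟩ := hT.jn B hB
    obtain ⟨w0, wl⟩ := hWW0 V F M y B hBy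
    obtain ⟨i1, i2, i3, _, _⟩ := hIDX V F M.toCyc B (st M y B)
    have inj : ∀ a b, a < M.len B → b < M.len B → ww M y B a = ww M y B b → a = b := i1
    have surV : ∀ v, OnV M.toCyc B v → ∃ a, a < M.len B ∧ ww M y B a = v := i2
    have surE : ∀ e, OnE M.toCyc B e → ∃ a, a < M.len B ∧
        e = s(ww M y B a, ww M y B (a + 1)) := i3
    have onv : ∀ a, OnV M.toCyc B (ww M y B a) := fun a => ⟨_, rfl⟩
    have one : ∀ a, OnE M.toCyc B s(ww M y B a, ww M y B (a + 1)) := fun a => ⟨_, rfl⟩
    obtain ⟨S, hS⟩ : ∃ S : Finset ℕ, S = (range (M.len B)).filter (fun k => sh M x y B k) :=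
      ⟨_, rfl⟩
    obtain ⟨E, hE⟩ : ∃ E : Finset ℕ, E = (range (M.len B)).filter (fun k => sh M x y B k ∧
        (∃ b, k < b ∧ sh M x y B b) ∧
        ∃ A, OnV M.toCyc A x ∧ OnE M.toCyc A s(ww M y B k, ww M y B (k + 1))) := ⟨_, rfl⟩
    obtain ⟨G, hG⟩ : ∃ G : Finset ℕ, G = (range (M.len B)).filter (fun k => gp M x y B k) :=
      ⟨_, rfl⟩
    have memS : ∀ k, k ∈ S ↔ sh M x y B k := by
      intro k
      rw [hS, mem_filter, mem_range]
      exact ⟨fun h => h.2, fun h => ⟨h.2.1, h⟩⟩
    have memE : ∀ k, k ∈ E ↔ sh M x y B k ∧ (∃ b, k < b ∧ sh M x y B b) ∧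
        ∃ A, OnV M.toCyc A x ∧ OnE M.toCyc A s(ww M y B k, ww M y B (k + 1)) := by
      intro k
      rw [hE, mem_filter, mem_range]
      exact ⟨fun h => h.2, fun h => ⟨h.1.2.1, h⟩⟩
    have memG : ∀ k, k ∈ G ↔ gp M x y B k := by
      intro k
      rw [hG, mem_filter, mem_range]
      exact ⟨fun h => h.2, fun h => ⟨h.1.2.1, h⟩⟩
    -- the vertices
    have cS : S.card = (shV M x B).card := by
      refine card_bij (fun k _ => ww M y B k) ?_ ?_ ?_
      · intro k hk
        have h := (memS k).1 hk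
        unfold shV
        rw [mem_filter]
        exact ⟨mem_univ _, onv k, h.2.2⟩
      · intro a ha b hb hab
        exact inj a b ((memS a).1 ha).2.1 ((memS b).1 hb).2.1 hab
      · intro v hv
        unfold shV at hv
        rw [mem_filter] at hv
        obtain ⟨_, hvB, A, hAx, hAv⟩ := hv
        obtain ⟨a, ha, hav⟩ := surV v hvB
        refine ⟨a, (memS a).2 ⟨?_, ha, A, hAx, ?_⟩, hav⟩
        · rcases Nat.eq_zero_or_pos a with h0 | h0
          · exfalso
            rw [h0, w0] at hav
            rw [← hav] at hAv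
            exact hT.ne A ⟨hAx, hAv⟩
          · exact h0
        · rw [hav]; exact hAv
    -- the edges
    have cE : E.card = (shE M x B).card := by
      refine card_bij (fun k _ => s(ww M y B k, ww M y B (k + 1))) ?_ ?_ ?_
      · intro k hk
        have h := (memE k).1 hk
        unfold shE
        rw [mem_filter]
        exact ⟨mem_univ _, one k, h.2.2⟩
      · intro a ha b hb hab
        obtain ⟨ha1, ⟨a', haa, ha2⟩, _⟩ := (memE a).1 ha
        obtain ⟨hb1, ⟨b', hbb, hb2⟩, _⟩ := (memE b).1 hb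
        have ha3 : a' < M.len B := ha2.2.1
        have hb3 : b' < M.len B := hb2.2.1
        rcases Sym2.eq_iff.1 hab with ⟨h1, _⟩ | ⟨h1, h2⟩
        · exact inj a b ha1.2.1 hb1.2.1 h1
        · have e1 := inj a (b + 1) ha1.2.1 (by omega) h1
          have e2 := inj (a + 1) b (by omega) hb1.2.1 h2
          omega
      · intro e he
        unfold shE at he
        rw [mem_filter] at he
        obtain ⟨_, heB, A, hAx, hAe⟩ := he
        obtain ⟨a, ha, rfl⟩ := surE e heB
        obtain ⟨q1, q2, _⟩ := (hEDG V F M).1 A _ _ hAe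
        have hy : ¬ OnV M.toCyc A y := fun h => hT.ne A ⟨hAx, h⟩
        have ha0 : 1 ≤ a := by
          rcases Nat.eq_zero_or_pos a with h0 | h0
          · exfalso
            rw [h0, w0] at q1
            exact hy q1
          · exact h0
        have ha1 : a + 1 < M.len B := by
          rcases Nat.lt_or_ge (a + 1) (M.len B) with h0 | h0
          · exact h0
          · exfalso
            have : a + 1 = M.len B := by omega
            rw [this, wl] at q2
            exact hy q2
        exact ⟨a, (memE a).2 ⟨⟨ha0, ha, A, hAx, q1⟩, ⟨a + 1, Nat.lt_succ_self a, by omega, ha1, A,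
          hAx, q2⟩, A, hAx, hAe⟩, rfl⟩
    -- all but the last shared index
    have hSne : S.Nonempty := ⟨k0, (memS k0).2 hk0⟩
    obtain ⟨m, hm, hmax⟩ := S.exists_max_image id hSne
    have hunion : G ∪ E = S.erase m := by
      ext k
      rw [mem_union, memG, memE, mem_erase, memS]
      unfold gp
      constructor
      · rintro (⟨h1, ⟨b, hb, hb2⟩, _⟩ | ⟨h1, ⟨b, hb, hb2⟩, _⟩)
        · have : b ≤ m := hmax b ((memS b).2 hb2)
          exact ⟨by omega, h1⟩
        · have : b ≤ m := hmax b ((memS b).2 hb2)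
          exact ⟨by omega, h1⟩
      · rintro ⟨h1, h2⟩
        have h3 : k ≤ m := hmax k ((memS k).2 h2)
        have h4 : ∃ b, k < b ∧ sh M x y B b := ⟨m, by omega, (memS m).1 hm⟩
        by_cases h5 : ∃ A, OnV M.toCyc A x ∧ OnE M.toCyc A s(ww M y B k, ww M y B (k + 1))
        · exact Or.inr ⟨h2, h4, h5⟩
        · exact Or.inl ⟨h2, h4, h5⟩
    have hdisj : Disjoint G E := by
      rw [Finset.disjoint_left]
      intro k h1 h2
      exact ((memG k).1 h1).2.2 ((memE k).1 h2).2.2
    have hc1 : G.card + E.card = S.card - 1 := by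
      rw [← card_union_of_disjoint hdisj, hunion, card_erase_of_mem hm]
    have hc2 : 1 ≤ S.card := card_pos.2 hSne
    rw [← hG, ← cS, ← cE]
    omega
  unfold gaps
  rw [card_sigma]
  push_cast
  exact sum_congr rfl key

end Pool.Agent.helper84.NR
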