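import Pool.Agent.helper24.NR.Spec

set_option autoImplicit false

namespace Pool.Agent.NR

open Finset

theorem HSO_one {V F : Type} (vs : F → Finset V) (es : F → Finset (Sym2 V)) (x y : V)
    (hc : Cfg vs es) (e : Sym2 V) (f : F) (hx : x ∈ vs f) (he : e ∈ es f) (hxe : x ∉ e)
    (hny : ∀ g, y ∈ vs g → e ∉ es g) :
    ∃ g, (e ∈ es g ∧ x ∉ vs g ∧ y ∉ vs g) ∧ ∀ k, e ∈ es k → x ∉ vs k → k = g := by
  revert he hxe hny
  refine Sym2.ind (fun u v => ?_) e
  intro he hxe hny
  obtain ⟨f1, g1, hne, hk⟩ := hc.two s(u, v) ⟨f, he⟩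
  have key : ∀ a b, a ≠ b → s(u, v) ∈ es a → s(u, v) ∈ es b → x ∈ vs a → x ∉ vs b := by
    intro a b hab ha hb hxa hxb
    obtain ⟨h1, h2, h3⟩ := hc.ends a u v ha
    obtain ⟨h4, h5, _⟩ := hc.ends b u v hb
    have hxu : x ≠ u := fun h => hxe (by rw [h]; exact Sym2.mem_mk_left u v)
    have hxv : x ≠ v := fun h => hxe (by rw [h]; exact Sym2.mem_mk_right u v)
    exact hc.meet3 a b hab x u v hxu h3 hxv hxa h1 h2 hxb h4 h5
  have hef1 : s(u, v) ∈ es f1 := (hk f1).2 (Or.inl rfl)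
  have heg1 : s(u, v) ∈ es g1 := (hk g1).2 (Or.inr rfl)
  rcases (hk f).1 he with h | h
  · subst h
    refine ⟨g1, ⟨heg1, key f g1 hne he heg1 hx, fun hy => hny g1 hy heg1⟩, ?_⟩
    intro k hek hxk
    rcases (hk k).1 hek with h' | h'
    · subst h'; exact absurd hx hxk
    · exact h'
  · subst h
    refine ⟨f1, ⟨hef1, key f f1 hne.symm he hef1 hx, fun hy => hny f1 hy hef1⟩, ?_⟩
    intro k hek hxk
    rcases (hk k).1 hek with h' | h'
    · exact h'
    · subst h'; exact absurd hx hxk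

theorem HSO : HSO_stmt := by
  classical
  intro V F _ _ vs es x y hb
  have hc := hb.cfg
  have hmem : ∀ e f v, v ∈ e → e ∈ es f → v ∈ vs f := by
    intro e f v
    refine Sym2.ind (fun a b => ?_) e
    intro hv he
    obtain ⟨h1, h2, _⟩ := hc.ends f a b he
    rcases Sym2.mem_iff.1 hv with h | h
    · rw [h]; exact h1
    · rw [h]; exact h2
  have hEE : ∀ e f, e ∈ es f → e ∈ EE es := fun e f he => by
    unfold EE; exact mem_biUnion.2 ⟨f, mem_univ _, he⟩
  have hCX : CM vs es x y ⊆ EX vs es x := by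
    intro e he
    unfold CM at he
    rw [mem_filter] at he
    obtain ⟨h0, ⟨f, hf, hef⟩, ⟨g, hg, heg⟩⟩ := he
    unfold EX
    rw [mem_filter]
    exact ⟨h0, fun hxe => hb.noface g (hmem e g x hxe heg) hg, f, hf, hef⟩
  have hCY : CM vs es x y ⊆ EX vs es y := by
    intro e he
    unfold CM at he
    rw [mem_filter] at he
    obtain ⟨h0, ⟨f, hf, hef⟩, ⟨g, hg, heg⟩⟩ := he
    unfold EX
    rw [mem_filter]
    exact ⟨h0, fun hye => hb.noface f hf (hmem e f y hye hef), g, hg, heg⟩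
  obtain ⟨X, hX⟩ : ∃ X, X = EX vs es x \ CM vs es x y := ⟨_, rfl⟩
  obtain ⟨Y, hY⟩ : ∃ Y, Y = EX vs es y \ CM vs es x y := ⟨_, rfl⟩
  have cX : X.card + (CM vs es x y).card = (EX vs es x).card := by
    rw [hX]; exact card_sdiff_add_card_eq_card hCX
  have cY : Y.card + (CM vs es x y).card = (EX vs es y).card := by
    rw [hY]; exact card_sdiff_add_card_eq_card hCY
  have memX : ∀ e, e ∈ X ↔ x ∉ e ∧ (∃ f, x ∈ vs f ∧ e ∈ es f) ∧ ∀ g, y ∈ vs g → e ∉ es g := by
    intro e
    rw [hX, mem_sdiff]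
    unfold EX CM
    rw [mem_filter, mem_filter]
    constructor
    · rintro ⟨⟨h0, h1, h2⟩, h3⟩
      exact ⟨h1, h2, fun g hg heg => h3 ⟨h0, h2, g, hg, heg⟩⟩
    · rintro ⟨h1, ⟨f, hf, hef⟩, h3⟩
      refine ⟨⟨hEE e f hef, h1, f, hf, hef⟩, ?_⟩
      rintro ⟨_, _, g, hg, heg⟩
      exact h3 g hg heg
  have memY : ∀ e, e ∈ Y ↔ y ∉ e ∧ (∃ f, y ∈ vs f ∧ e ∈ es f) ∧ ∀ g, x ∈ vs g → e ∉ es g := by
    intro e
    rw [hY, mem_sdiff]
    unfold EX CM
    rw [mem_filter, mem_filter]
    constructor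
    · rintro ⟨⟨h0, h1, h2⟩, h3⟩
      exact ⟨h1, h2, fun g hg heg => h3 ⟨h0, ⟨g, hg, heg⟩, h2⟩⟩
    · rintro ⟨h1, ⟨f, hf, hef⟩, h3⟩
      refine ⟨⟨hEE e f hef, h1, f, hf, hef⟩, ?_⟩
      rintro ⟨_, ⟨g, hg, heg⟩, _⟩
      exact h3 g hg heg
  have hdisj : Disjoint X Y := by
    rw [Finset.disjoint_left]
    intro e h1 h2
    obtain ⟨_, ⟨f, hf, hef⟩, _⟩ := (memX e).1 h1
    exact ((memY e).1 h2).2.2 f hf hef
  have memH : ∀ H, H ∈ HH vs x y ↔ x ∉ vs H ∧ y ∉ vs H := by
    intro H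
    unfold HH
    rw [mem_filter]
    exact ⟨fun h => h.2, fun h => ⟨mem_univ _, h⟩⟩
  have main : ∑ H ∈ HH vs x y, ((es H).filter fun e => e ∉ IN vs es x y).card
      = (X ∪ Y).card := by
    have s1 : ∑ H ∈ HH vs x y, ((es H).filter fun e => e ∉ IN vs es x y).card =
        ∑ H ∈ HH vs x y, ((X ∪ Y).bipartiteAbove (fun H e => e ∈ es H) H).card := by
      refine sum_congr rfl fun H hH => ?_
      refine congrArg card (Finset.ext fun e => ?_)
      have hH' := (memH H).1 hH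
      unfold bipartiteAbove
      rw [mem_filter, mem_filter, mem_union, memX, memY]
      unfold IN
      rw [mem_filter]
      constructor
      · rintro ⟨heH, hn⟩
        refine ⟨?_, heH⟩
        have hxe : x ∉ e := fun h => hH'.1 (hmem e H x h heH)
        have hye : y ∉ e := fun h => hH'.2 (hmem e H y h heH)
        have hex : ∃ f, e ∈ es f ∧ (x ∈ vs f ∨ y ∈ vs f) := by
          by_contra hcon
          push Not at hcon
          exact hn ⟨hEE e H heH, hcon⟩
        have three : ∀ a b, x ∈ vs a → e ∈ es a → y ∈ vs b → e ∈ es b → False := by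
          intro a b hxa hea hyb heb
          obtain ⟨f1, g1, hne, hk⟩ := hc.two e ⟨a, hea⟩
          have n1 : a ≠ b := fun h => hb.noface a hxa (by rw [h]; exact hyb)
          have n2 : a ≠ H := fun h => hH'.1 (by rw [← h]; exact hxa)
          have n3 : b ≠ H := fun h => hH'.2 (by rw [← h]; exact hyb)
          rcases (hk a).1 hea with h1 | h1 <;> rcases (hk b).1 heb with h2 | h2 <;>
            rcases (hk H).1 heH with h3 | h3
          · exact n1 (h1.trans h2.symm)
          · exact n1 (h1.trans h2.symm)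
          · exact n2 (h1.trans h3.symm)
          · exact n3 (h2.trans h3.symm)
          · exact n3 (h2.trans h3.symm)
          · exact n2 (h1.trans h3.symm)
          · exact n1 (h1.trans h2.symm)
          · exact n1 (h1.trans h2.symm)
        obtain ⟨f, hef, hf | hf⟩ := hex
        · exact Or.inl ⟨hxe, ⟨f, hf, hef⟩, fun g hg heg => three f g hf hef hg heg⟩
        · exact Or.inr ⟨hye, ⟨f, hf, hef⟩, fun g hg heg => three g f hg heg hf hef⟩
      · rintro ⟨h, heH⟩
        refine ⟨heH, ?_⟩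
        rintro ⟨_, hall⟩
        rcases h with ⟨_, ⟨f, hf, hef⟩, _⟩ | ⟨_, ⟨f, hf, hef⟩, _⟩
        · exact (hall f hef).1 hf
        · exact (hall f hef).2 hf
    have s3 : ∑ e ∈ X ∪ Y, ((HH vs x y).bipartiteBelow (fun H e => e ∈ es H) e).card =
        ∑ e ∈ X ∪ Y, 1 := by
      refine sum_congr rfl fun e he => ?_
      rw [mem_union] at he
      have hex : ∃ g, ∀ k, k ∈ (HH vs x y).bipartiteBelow (fun H e => e ∈ es H) e ↔ k = g := by
        rcases he with he | he
        · obtain ⟨h1, ⟨f, hf, hef⟩, h3⟩ := (memX e).1 he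
          obtain ⟨g, ⟨hg1, hg2, hg3⟩, hu⟩ := HSO_one vs es x y hc e f hf hef h1 h3
          refine ⟨g, fun k => ?_⟩
          unfold bipartiteBelow
          rw [mem_filter, memH]
          constructor
          · rintro ⟨⟨ha, hb'⟩, hk⟩
            exact hu k hk ha
          · intro h
            rw [h]
            exact ⟨⟨hg2, hg3⟩, hg1⟩
        · obtain ⟨h1, ⟨f, hf, hef⟩, h3⟩ := (memY e).1 he
          obtain ⟨g, ⟨hg1, hg2, hg3⟩, hu⟩ := HSO_one vs es y x hc e f hf hef h1 h3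
          refine ⟨g, fun k => ?_⟩
          unfold bipartiteBelow
          rw [mem_filter, memH]
          constructor
          · rintro ⟨⟨ha, hb'⟩, hk⟩
            exact hu k hk hb'
          · intro h
            rw [h]
            exact ⟨⟨hg3, hg2⟩, hg1⟩
      obtain ⟨g, hg⟩ := hex
      rw [card_eq_one]
      refine ⟨g, Finset.ext fun k => ?_⟩
      rw [hg k, mem_singleton]
    rw [s1, sum_card_bipartiteAbove_eq_sum_card_bipartiteBelow, s3, sum_const, smul_eq_mul, mul_one]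
  have hU : (X ∪ Y).card = X.card + Y.card := card_union_of_disjoint hdisj
  have hfin : ∑ H ∈ HH vs x y, ((es H).filter fun e => e ∉ IN vs es x y).card +
      2 * (CM vs es x y).card = (EX vs es x).card + (EX vs es y).card := by
    rw [main, hU]
    omega
  exact hfin

end Pool.Agent.NR
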